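import Pool.Agent.G9.Stmts

/-!
# Squad GNI (MP_094b6b_co), row GAU (helper27): Gauss sums in characteristic 3
-/

set_option autoImplicit false

namespace Pool.Agent.G9.H27

open Finset Pool.Agent.G9

theorem gau : GauStmt := by
  intro F _ _ _ _ ψ hψ
  have h3 : (3 : F) = 0 := by
    have := CharP.cast_eq_zero F 3
    exact_mod_cast this
  have h2 : ringChar F ≠ 2 := by
    rw [ringChar.eq F 3]
    decide
  have hprim : ψ.IsPrimitive := AddChar.IsPrimitive.of_ne_one hψ
  set χ : MulChar F ℂ := (quadraticChar F).ringHomComp (Int.castRingHom ℂ) with hχ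
  have hχa : ∀ a : F, χ a = ((quadraticChar F a : ℤ) : ℂ) := fun a => rfl
  have hχne : χ ≠ 1 := by
    rw [hχ]
    exact (MulChar.ringHomComp_ne_one_iff (RingHom.injective_int _)).2
      (quadraticChar_ne_one h2)
  have hχq : χ.IsQuadratic := (quadraticChar_isQuadratic F).comp _
  refine ⟨gaussSum χ ψ, ?_, ?_⟩
  · have h := gaussSum_sq hχne hχq hprim
    have h1 : ‖gaussSum χ ψ ^ 2‖ = ‖χ (-1) * (Fintype.card F : ℂ)‖ := by rw [h]
    rw [norm_pow, norm_mul] at h1
    rw [h1]
    have h4 : ‖χ (-1)‖ = 1 := by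
      rcases hχq (-1) with h5 | h5 | h5
      · exfalso
        have h6 : IsUnit (-1 : F) := isUnit_one.neg
        exact (h6.map χ).ne_zero h5
      · rw [h5, norm_one]
      · rw [h5, norm_neg, norm_one]
    rw [h4, one_mul]
    simp
  · intro A L hA
    have hsq : ∀ y : F, A * y ^ 2 + L * y = A * (y - L / A) ^ 2 + -(L ^ 2 / A) := by
      intro y
      have e : A * (y - L / A) ^ 2 + -(L ^ 2 / A) = A * y ^ 2 - 2 * (L * y) := by
        field_simp
        ring
      rw [e]
      have h5 : (3 : F) * (L * y) = 0 := by rw [h3, zero_mul]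
      linear_combination h5
    have e1 : ∑ y, ψ (A * y ^ 2 + L * y) = ψ (-(L ^ 2 / A)) * ∑ y, ψ (A * y ^ 2) := by
      rw [Finset.mul_sum]
      rw [← Equiv.sum_comp (Equiv.subRight (L / A)) fun y => ψ (-(L ^ 2 / A)) * ψ (A * y ^ 2)]
      refine Finset.sum_congr rfl fun y _ => ?_
      rw [hsq y, AddChar.map_add_eq_mul, mul_comm]
      rfl
    have e2 : ∑ y, ψ (A * y ^ 2) = ∑ a, (χ a + 1) * ψ (A * a) := by
      have h5 := Finset.sum_fiberwise (s := (Finset.univ : Finset F)) (g := fun y : F => y ^ 2)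
        (f := fun y : F => ψ (A * y ^ 2))
      rw [← h5]
      refine Finset.sum_congr rfl fun a _ => ?_
      have h6 : ∀ y ∈ Finset.univ.filter (fun y : F => y ^ 2 = a), ψ (A * y ^ 2) = ψ (A * a) := by
        intro y hy
        rw [(Finset.mem_filter.1 hy).2]
      rw [Finset.sum_congr rfl h6, Finset.sum_const, nsmul_eq_mul]
      congr 1
      have h7 := quadraticChar_card_sqrts h2 a
      have h8 : (Finset.univ.filter (fun y : F => y ^ 2 = a)) = {x : F | x ^ 2 = a}.toFinset := by
        ext x
        simp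
      rw [h8, hχa]
      have h9 : ((({x : F | x ^ 2 = a}.toFinset.card : ℤ)) : ℂ) =
          ((quadraticChar F a + 1 : ℤ) : ℂ) := by rw [h7]
      push_cast at h9
      exact h9
    have e3 : ∑ a, ψ (A * a) = 0 := by
      have h5 := AddChar.sum_mulShift A hprim
      rw [if_neg hA, Nat.cast_zero] at h5
      rw [← h5]
      refine Finset.sum_congr rfl fun a _ => ?_
      rw [mul_comm]
    have e4 : ∑ a, χ a * ψ (A * a) = χ A * gaussSum χ ψ := by
      have h5 := gaussSum_mulShift χ ψ (Units.mk0 A hA)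
      rw [Units.val_mk0] at h5
      have h6 : gaussSum χ (ψ.mulShift A) = ∑ a, χ a * ψ (A * a) := by
        unfold gaussSum
        refine Finset.sum_congr rfl fun a _ => ?_
        rw [AddChar.mulShift_apply]
      rw [← h6, ← h5, ← mul_assoc]
      have h7 : χ A * χ A = 1 := by
        rcases hχq A with h8 | h8 | h8
        · exfalso
          have h9 : IsUnit A := isUnit_iff_ne_zero.2 hA
          exact (h9.map χ).ne_zero h8
        · rw [h8, one_mul]
        · rw [h8]
          ring
      rw [h7, one_mul]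
    rw [e1, e2]
    simp only [add_mul, one_mul]
    rw [Finset.sum_add_distrib, e3, e4, add_zero, hχa]
    ring

end Pool.Agent.G9.H27
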